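import Pool.Agent.H58.PF.Targets

/-!
# Module DWN: going down
-/

set_option autoImplicit false

open Topology Cardinal

namespace Pool.Agent.H56.PF

open Pool.Agent.H58.PF

/-- module DWN -/
theorem dwn : T_DWN := by
  intro W U _ E r 𝓗 N x n Φ V hM hK hΦ hn hV hx
  have key : ∀ (n : ℕ) (l₀ : List W), (∀ w ∈ l₀, w ∈ V ∧ E.cw w ∈ N) → l₀ ∈ (qh 𝓗)^[n] Φ →
      ∃ l, l₀ ++ l ∈ Φ ∧ ∀ w ∈ l, w ∈ V ∧ E.cw w ∈ N := by
    intro n
    induction n with
    | zero =>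
      intro l₀ _ h
      exact ⟨[], by simpa using h, by simp⟩
    | succ n ih =>
      intro l₀ h0 h
      rw [Function.iterate_succ_apply'] at h
      have h1 : E.cs (secs ((qh 𝓗)^[n] Φ) l₀) ∈ N :=
        mdl_secs hM l₀ _ (mdl_qhn hM n Φ hΦ) fun w hw => (h0 w hw).2
      have h2 : wcl (pts (secs ((qh 𝓗)^[n] Φ) l₀)) ∈ 𝓗 := h
      obtain ⟨v, hv, hv1, hv2⟩ := mem_closure_iff.1 (hK.2 _ h1 h2) V hV hx
      have h3 : l₀ ++ [v] ∈ (qh 𝓗)^[n] Φ := hv1
      obtain ⟨l, hl1, hl2⟩ := ih (l₀ ++ [v]) (by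
        intro w hw
        rcases List.mem_append.1 hw with h4 | h4
        · exact h0 w h4
        · rw [List.mem_singleton.1 h4]
          exact ⟨hv, hv2⟩) h3
      refine ⟨v :: l, ?_, ?_⟩
      · rw [List.append_assoc] at hl1
        exact hl1
      · intro w hw
        rcases List.mem_cons.1 hw with h4 | h4
        · rw [h4]
          exact ⟨hv, hv2⟩
        · exact hl2 w h4
  obtain ⟨l, h1, h2⟩ := key n [] (by simp) hn
  exact ⟨l, h1, h2⟩

end Pool.Agent.H56.PF
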