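import Pool.Agent.H58.PF.Targets

/-!
# Module LFT: going up
-/

set_option autoImplicit false

open Topology Cardinal

namespace Pool.Agent.H56.PF

open Pool.Agent.H58.PF

/-- module LFT -/
theorem lft (hKNM : T_KNM) : T_LFT := by
  intro W U _ E r 𝓗 c
  induction c using List.reverseRecOn with
  | nil =>
    intro Φ _ _ _ _ h
    simpa using h
  | append_singleton c t ih =>
    intro Φ hmax hmdl hpw hcs hmem
    obtain ⟨hc, -, hct⟩ := List.pairwise_append.1 hpw
    have ht : t ∈ c ++ [t] := by simp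
    have hsub : ∀ v ∈ c, v ∈ c ++ [t] := fun v hv => by simp [hv]
    have hl : ∀ w ∈ c.map Prod.snd, E.cw w ∈ Ran E t.1 := by
      intro w hw
      obtain ⟨v, hv, rfl⟩ := List.mem_map.1 hw
      exact (hct v hv t (by simp)).2
    have h1 : E.cs (secs Φ (c.map Prod.snd)) ∈ Ran E t.1 :=
      mdl_secs (hmdl t ht).1 _ Φ (hcs t ht) hl
    have h2 : t.2 ∈ pts (secs Φ (c.map Prod.snd)) := by
      show c.map Prod.snd ++ [t.2] ∈ Φ
      rw [List.map_append] at hmem
      exact hmem
    have h3 := hKNM W U E r 𝓗 (Ran E t.1) t.2 (secs Φ (c.map Prod.snd)) hmax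
      (ran_countable E _) (hmdl t ht).1 (hmdl t ht).2 h1 h2
    have h4 := ih (qh 𝓗 Φ) hmax (fun v hv => hmdl v (hsub v hv)) hc
      (fun v hv => (hmdl v (hsub v hv)).1.qh Φ (hcs v (hsub v hv))) h3
    rw [List.length_append, List.length_singleton, Function.iterate_succ_apply]
    exact h4

end Pool.Agent.H56.PF
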